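import Pool.Agent.Run7.h207.INV.Join

/-!
# The universal strictly subadditive partners for the inversion number of dijoins

Let `inv` be the inversion number. The question asks for which `ℓ` there is an oriented graph `A` with `inv A = ℓ` such that
`inv (A → B) < inv A + inv B` for all `B` with `inv B ≥ 1`. Here these `A` are characterised, for every `ℓ`: they are the
oriented graphs with an EVEN optimal decycling family, that is, `ℓ` is odd and some `ℓ` sets, each vertex being in an even number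
of them, decycle `A`. If `A` is not of this kind then for every `m ≥ 1` equality `inv (A → E) = inv (E → A) = ℓ + m` holds for a
graph `E` with `inv E = m` which depends only on `ℓ` and `m`, and not on `A`. In particular, for even `ℓ` all `A` with
`inv A = ℓ` have common additive partners `E` of all inversion numbers `m`.

The graph `E` is a join of `m` ladders; a ladder is the transitive tournament with the order `p_1, q_1, …, p_M, q_M` in which the
set of all `q_k` is inverted, `M > 4 ^ (ℓ + m)`.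

Proof. A family of `t` sets is a map `z` to `F_2 ^ t`. If it decycles `A → E` then, by the pigeonhole principle, two pairs of a
ladder have the same vectors `y_0 = z (p_k)`, `y_1 = z (q_k)`. The order of the four vertices shows that `w = y_0 + y_1` has
`w · w = 1` and is orthogonal to the vectors of all vertices outside the ladder. So there are `m` orthonormal vectors, orthogonal
to the `z (a)`, `a ∈ A`. In `F_2 ^ t` the orthogonal complement of `w` with `w · w = 1` is isometric to `F_2 ^ (t - 1)` if `w` has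
a zero coordinate, and this is so unless `w` is the only one of these vectors. So either `A` is decycled by `t - m` sets, or by
`t - m + 1` sets with `w = (1, …, 1)` orthogonal to all vectors of `A`.
-/

set_option autoImplicit false

namespace Pool.Agent.Results.MP_61c7a3_co.UniversalPartners

/-- The family `X` of `t` sets decycles the digraph `A`: after inverting all the sets `X j` the digraph is acyclic, that is, its
vertices can be numbered (by `f`) such that the numbers increase along all arcs. The arc between `u` and `v` is reversed if and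
only if `u` and `v` are both in `X j` for an odd number of the `j`. (A digraph with a loop or with two opposite arcs has no such
family, so that only oriented graphs occur.) -/
def Decycles {V : Type} (A : V → V → Prop) {t : ℕ} (X : Fin t → Set V) : Prop :=
  ∃ f : V → ℕ, ∀ u v : V,
    (A u v ∧ Even (Nat.card {j : Fin t // u ∈ X j ∧ v ∈ X j})) ∨
    (A v u ∧ Odd (Nat.card {j : Fin t // u ∈ X j ∧ v ∈ X j})) → f u < f v

/-- The inversion number of `A` is `ℓ`: the least size of a decycling family. -/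
def IsInv {V : Type} (A : V → V → Prop) (ℓ : ℕ) : Prop := IsLeast {t : ℕ | ∃ X : Fin t → Set V, Decycles A X} ℓ

/-- The dijoin `A → B`. -/
def Dijoin {V W : Type} (A : V → V → Prop) (B : W → W → Prop) : V ⊕ W → V ⊕ W → Prop
  | Sum.inl a, Sum.inl b => A a b
  | Sum.inr a, Sum.inr b => B a b
  | Sum.inl _, Sum.inr _ => True
  | Sum.inr _, Sum.inl _ => False

/-- `ℓ` is odd and some family of `ℓ` sets decycles `A`, each vertex being in an even number of them. -/
def EvenFamily {V : Type} (A : V → V → Prop) (ℓ : ℕ) : Prop :=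
  Odd ℓ ∧ ∃ X : Fin ℓ → Set V, Decycles A X ∧ ∀ v, Even (Nat.card {j : Fin ℓ // v ∈ X j})

open Pool.Agent.H167R3.Inv (InvSet Wit dot dot_comm zmod2_cases card_cast)
open Pool.Agent.Run7.h207.INV

theorem dijoin_eq {V W : Type} (A : V → V → Prop) (B : W → W → Prop) :
    Dijoin A B = Pool.Agent.Run7.h207.INV.Dijoin A B := by
  funext a b
  rcases a with a | a <;> rcases b with b | b <;> rfl

theorem isInv_iff {V : Type} (A : V → V → Prop) (ℓ : ℕ) : IsInv A ℓ ↔ IsLeast (InvSet A) ℓ := Iff.rfl

theorem evenFamily_iff {V : Type} (A : V → V → Prop) (ℓ : ℕ) : EvenFamily A ℓ ↔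
    Odd ℓ ∧ ∃ (z : V → Fin ℓ → ZMod 2) (f : V → ℕ), Wit A ℓ z f ∧ ∀ v, dot (z v) (z v) = 0 := by
  classical
  refine and_congr_right fun _ => ⟨?_, ?_⟩
  · rintro ⟨X, ⟨f, hf⟩, hX⟩
    have he : ∀ u v, Nat.card {j : Fin ℓ // (if u ∈ X j then (1 : ZMod 2) else 0) = 1 ∧
        (if v ∈ X j then (1 : ZMod 2) else 0) = 1} = Nat.card {j : Fin ℓ // u ∈ X j ∧ v ∈ X j} := by
      intro u v
      apply Nat.card_congr
      apply Equiv.subtypeEquivRight
      intro j
      by_cases h1 : u ∈ X j <;> by_cases h2 : v ∈ X j <;> simp [h1, h2]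
    have hc : ∀ u v, ((Nat.card {j : Fin ℓ // u ∈ X j ∧ v ∈ X j} : ℕ) : ZMod 2) =
        dot (fun j => if u ∈ X j then (1 : ZMod 2) else 0) (fun j => if v ∈ X j then 1 else 0) := by
      intro u v
      rw [← he u v]
      exact card_cast (fun v (j : Fin ℓ) => if v ∈ X j then (1 : ZMod 2) else 0) u v
    refine ⟨fun v j => if v ∈ X j then 1 else 0, f, fun u v huv => hf u v ?_, fun v => ?_⟩
    · beta_reduce at huv
      rw [← hc u v] at huv
      exact huv.imp (fun h => ⟨h.1, ZMod.natCast_eq_zero_iff_even.1 h.2⟩)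
        (fun h => ⟨h.1, ZMod.natCast_eq_one_iff_odd.1 h.2⟩)
    · rw [← hc v v]
      refine ZMod.natCast_eq_zero_iff_even.2 ?_
      have := hX v
      simp only [and_self]
      exact this
  · rintro ⟨z, f, hz, h0⟩
    refine ⟨fun j => {v | z v j = 1}, ⟨f, fun u v huv => hz u v ?_⟩, fun v => ?_⟩
    · have hc := card_cast z u v
      rcases huv with ⟨h1, h2⟩ | ⟨h1, h2⟩
      · left
        refine ⟨h1, ?_⟩
        rw [← hc]
        exact ZMod.natCast_eq_zero_iff_even.2 h2
      · right
        refine ⟨h1, ?_⟩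
        rw [← hc]
        exact ZMod.natCast_eq_one_iff_odd.2 h2
    · have hc := card_cast z v v
      rw [h0 v] at hc
      simp only [and_self] at hc
      exact ZMod.natCast_eq_zero_iff_even.1 hc

/-- the consequence of the lower bound for dijoins with joins of ladders -/
theorem conseq {V : Type} {A : V → V → Prop} {ℓ m t : ℕ} (hA : IsInv A ℓ) (htm : t ≤ ℓ + m)
    (h : ∃ t' : ℕ, t' + m = t ∧ ∃ (Z : V → Fin t' → ZMod 2) (f : V → ℕ) (w : Fin t' → ZMod 2),
      Wit A t' Z f ∧ dot w w = 1 ∧ ∀ u, dot (Z u) w = 0) : t = ℓ + m ∧ EvenFamily A ℓ := by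
  obtain ⟨t', ht', Z, f, w, hZ, hw, hw0⟩ := h
  have h1 : ℓ ≤ t' := hA.2 (Pool.Agent.H167R3.Inv.mem_of_wit hZ)
  obtain rfl : t' = ℓ := by omega
  refine ⟨by omega, ?_⟩
  have h2 : ∀ j, w j = 1 := by
    intro j
    rcases zmod2_cases (w j) with hj | hj
    · exfalso
      have ht0 : t' ≠ 0 := by
        rintro rfl
        exact j.elim0
      obtain ⟨s, rfl⟩ := Nat.exists_eq_succ_of_ne_zero ht0
      obtain ⟨φ, hφ⟩ := reduce w hw j hj
      have h3 : Wit A s (fun u => φ (Z u)) f := Wit.congr hZ fun u v => hφ _ _ (hw0 u) (hw0 v)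
      have h4 : s + 1 ≤ s := hA.2 (Pool.Agent.H167R3.Inv.mem_of_wit h3)
      omega
    · exact hj
  have h5 : w = fun _ => 1 := funext h2
  subst h5
  rw [evenFamily_iff]
  refine ⟨?_, Z, f, hZ, fun v => by rw [← dot_ones]; exact hw0 v⟩
  have h6 : dot (fun _ : Fin t' => (1 : ZMod 2)) (fun _ => 1) = (t' : ZMod 2) := by
    unfold dot
    simp
  rw [h6] at hw
  exact ZMod.natCast_eq_one_iff_odd.1 hw

theorem result :
    -- (1) the better upper bound
    (∀ (V W : Type) [Finite V] [Finite W] (A : V → V → Prop) (B : W → W → Prop) (ℓ k : ℕ), EvenFamily A ℓ → 1 ≤ k →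
      IsInv B k → (∃ X : Fin (ℓ + k - 1) → Set (V ⊕ W), Decycles (Dijoin A B) X) ∧
        ∃ X : Fin (ℓ + k - 1) → Set (W ⊕ V), Decycles (Dijoin B A) X) ∧
    -- (2) common extremal partners of all inversion numbers
    (∀ ℓ m : ℕ, 1 ≤ m → ∃ (W : Type) (_ : Finite W) (E : W → W → Prop), IsInv E m ∧
      ∀ (V : Type) [Finite V] (A : V → V → Prop), IsInv A ℓ →
        (¬ EvenFamily A ℓ → IsInv (Dijoin A E) (ℓ + m) ∧ IsInv (Dijoin E A) (ℓ + m)) ∧
        (EvenFamily A ℓ → IsInv (Dijoin A E) (ℓ + m - 1) ∧ IsInv (Dijoin E A) (ℓ + m - 1))) ∧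
    -- (3) the universal strictly subadditive partners
    (∀ (V : Type) [Finite V] (A : V → V → Prop) (ℓ : ℕ), IsInv A ℓ →
      ((∀ (W : Type) [Finite W] (B : W → W → Prop) (k n : ℕ), 1 ≤ k → IsInv B k → IsInv (Dijoin A B) n → n < ℓ + k) ↔
        EvenFamily A ℓ)) := by
  have up : ∀ (V W : Type) [Finite V] [Finite W] (A : V → V → Prop) (B : W → W → Prop) (ℓ k : ℕ), EvenFamily A ℓ → 1 ≤ k →
      IsInv B k → (∃ X : Fin (ℓ + k - 1) → Set (V ⊕ W), Decycles (Dijoin A B) X) ∧
        ∃ X : Fin (ℓ + k - 1) → Set (W ⊕ V), Decycles (Dijoin B A) X := by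
    intro V W _ _ A B ℓ k hA hk hB
    rw [evenFamily_iff] at hA
    obtain ⟨hodd, z, f, hz, hz0⟩ := hA
    obtain ⟨l, rfl⟩ : ∃ l, k = l + 1 := ⟨k - 1, by omega⟩
    have h := upper_even hodd hz hz0 hB.1
    rw [show ℓ + (l + 1) - 1 = ℓ + l by omega, dijoin_eq, dijoin_eq]
    exact h
  have main : ∀ ℓ m : ℕ, 1 ≤ m → ∃ (W : Type) (_ : Finite W) (E : W → W → Prop), IsInv E m ∧
      ∀ (V : Type) [Finite V] (A : V → V → Prop), IsInv A ℓ →
        (¬ EvenFamily A ℓ → IsInv (Dijoin A E) (ℓ + m) ∧ IsInv (Dijoin E A) (ℓ + m)) ∧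
        (EvenFamily A ℓ → IsInv (Dijoin A E) (ℓ + m - 1) ∧ IsInv (Dijoin E A) (ℓ + m - 1)) := by
    intro ℓ m hm
    obtain ⟨m0, rfl⟩ : ∃ m0, m = m0 + 1 := ⟨m - 1, by omega⟩
    obtain ⟨M, hMd⟩ : ∃ M, M = 4 ^ (ℓ + m0 + 1) + 1 := ⟨_, rfl⟩
    have hM : ∀ t, t ≤ ℓ + m0 + 1 → 4 ^ t < M := by
      intro t ht
      have := Nat.pow_le_pow_right (show 0 < 4 by norm_num) ht
      omega
    have hEinv : IsInv (EM (m0 + 1) M) (m0 + 1) := by
      refine ⟨EM_upper (m0 + 1) M, fun t ht => ?_⟩
      by_contra hcon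
      have hcon' : t ≤ m0 := by
        have := not_le.1 hcon
        omega
      obtain ⟨t', ht', Z, f, w, _, hw, _⟩ := lower (V := PEmpty) (A := fun _ _ => True) (hM t (by omega)) ht id (fun a b h => h)
        (fun u => u.elim) (fun u => u.elim) (fun u => u.elim)
      have h0 : t' = 0 := by omega
      subst h0
      unfold dot at hw
      simp at hw
    refine ⟨Fin (m0 + 1) × (Fin M × Bool), inferInstance, EM (m0 + 1) M, hEinv, ?_⟩
    intro V _ A hA
    -- lower bounds
    have low1 : ∀ t, t ≤ ℓ + m0 → t ∈ InvSet (Pool.Agent.Run7.h207.INV.Dijoin A (EM (m0 + 1) M)) →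
        t = ℓ + m0 ∧ EvenFamily A ℓ := fun t ht h =>
      conseq hA ht (lower (hM t (by omega)) h Sum.inr (fun a b h => h) Sum.inl (fun u v h => h)
        (fun u => Or.inl fun b => trivial))
    have low2 : ∀ t, t ≤ ℓ + m0 → t ∈ InvSet (Pool.Agent.Run7.h207.INV.Dijoin (EM (m0 + 1) M) A) →
        t = ℓ + m0 ∧ EvenFamily A ℓ := fun t ht h =>
      conseq hA ht (lower (hM t (by omega)) h Sum.inl (fun a b h => h) Sum.inr (fun u v h => h)
        (fun u => Or.inr fun b => trivial))
    have hsub := upper hA.1 hEinv.1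
    rw [dijoin_eq, dijoin_eq]
    refine ⟨fun hne => ⟨⟨hsub.1, fun t ht => ?_⟩, ⟨hsub.2, fun t ht => ?_⟩⟩, fun he => ?_⟩
    · by_contra hcon
      have hcon' := not_le.1 hcon
      exact hne (low1 t (by omega) ht).2
    · by_contra hcon
      have hcon' := not_le.1 hcon
      exact hne (low2 t (by omega) ht).2
    · have hu := up V _ A (EM (m0 + 1) M) ℓ (m0 + 1) he (by omega) hEinv
      rw [dijoin_eq, dijoin_eq] at hu
      refine ⟨⟨hu.1, fun t ht => ?_⟩, ⟨hu.2, fun t ht => ?_⟩⟩
      · by_contra hcon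
        have hcon' := not_le.1 hcon
        have := (low1 t (by omega) ht).1
        omega
      · by_contra hcon
        have hcon' := not_le.1 hcon
        have := (low2 t (by omega) ht).1
        omega
  refine ⟨up, main, fun V _ A ℓ hA => ⟨fun h => ?_, fun he W _ B k n hk hB hn => ?_⟩⟩
  · by_contra hne
    obtain ⟨W, hW, E, hE, hE2⟩ := main ℓ 1 le_rfl
    have h1 := (hE2 V A hA).1 hne
    have := h W E 1 (ℓ + 1) le_rfl hE h1.1
    omega
  · have h1 := hn.2 (up V W A B ℓ k he hk hB).1
    have h2 : n ≤ ℓ + k - 1 := h1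
    omega

end Pool.Agent.Results.MP_61c7a3_co.UniversalPartners
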